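import Pool.Agent.U222.DB.Cyc

/-!
# The period conjecture for cycles on products of curves with arbitrary varieties

See `Pool/Agent/U222/DB/Defs.lean` for the definitions.
-/

set_option autoImplicit false

open CategoryTheory AlgebraicGeometry

universe u

namespace Pool.Agent.Results.MP_bf54cf_ag.CurvesTimesAnyVariety

open Pool.Agent.H914 Pool.Agent.H914.VarClass Pool.Agent.H914.VarClass.Obj Pool.Agent.Y121.AHS
  Pool.Agent.U222.DB
open Pool.Agent.U222.HC (InSpan)

/-- **De Rham-Betti classes on products of curves with arbitrary varieties.** Let `X` be a curve such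
that every nonzero Hodge substructure of `H¹(X)` is of dimension greater than `b_(2w-1)(Z)`, where `Z`
is any smooth projective variety. Then the de Rham-Betti classes of codimension `w` on `X × Z` are
combinations of products of classes of cycles on `X` and de Rham-Betti classes on `Z`, and `GPC^w` for
`X × Z` is equivalent to `GPC^w` and `GPC^(w-1)` for `Z`. -/
theorem result {k : Type u} [Field k] {𝒱 : VarClass k} {ops : CycleOps 𝒱} (T : HodgeTheory ops)
    (F : Subfield ℂ) (D : DeRham T F) (hW : WuestholzTheorem D) :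
    (∀ (X Z : 𝒱.Obj) (w : ℕ), IsWide T X (betti T Z (2 * w - 1)) →
      (∀ c, IsDRB D (X.prod Z) w c → InSpan T.W.K {x | IsProduct D X Z w x} c) ∧
      (GPC D (X.prod Z) w ↔ GPC D Z w ∧ ∀ v, v + 1 = w → GPC D Z v)) ∧
    (∀ (L : List 𝒱.Obj) (Z : 𝒱.Obj), IsLarge T L Z → Conclusions D (tower L Z) Z) ∧
    ∀ (X : 𝒱.Obj) (g : X ⟶ X) (N a b : ℕ), IsCyclicCurve T X g N a → a ^ 2 * b + a < N →
      IsWide T X b :=
  ⟨fun _ _ _ h => ⟨split hW h, gpc_iff hW h⟩, concl hW, fun _ _ _ _ _ => wide_of_cyclic⟩

end Pool.Agent.Results.MP_bf54cf_ag.CurvesTimesAnyVariety
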