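import Pool.Agent.S821.GS2

/-!
# The period conjecture for algebraic cycles on all powers of products of ANY number of hyperelliptic curves: pairs suffice

Let `C_1, …, C_N` be curves over `ℚ` with the same genus `g = n / 2` and with the period matrices `c_j` (rows: a basis of
`H_1(C_j, ℚ)`, columns: the forms `x^i dx / y`, a basis of `H¹_dR`), and let `c = c_1 ⊕ … ⊕ c_N`. A class in the tensor power
`H¹^{⊗ w}` of `H¹ = H¹(C_1) ⊕ … ⊕ H¹(C_N)` is given by its values `F I` on the tensors of the basis cycles. It is a de Rham-Betti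
class of weight `m` defined over the number field `K` if `(2πi)^m F = c^{⊗ w} a`, `a` with values in `K` (`IsClass`). The period
conjecture `GPC` says that all such rational classes are algebraic. The cohomology of every product `Y` of powers of the curves
and of their jacobians is a sum of direct summands of such tensor powers (with Tate twists), given by algebraic projectors.
The first algebraic classes are the classes of the divisors: the polarisations, with values `polB` on the pairs of cycles
of `C_j`; their products are the classes `polProducts`.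

`CyclesGPC K l c`: for all `w` and `m` the rational de Rham-Betti classes of weight `m` over `K` in `H¹^{⊗ w}` are exactly the
rational combinations of the products of `m` polarisations; and the classes with coefficients `F I ∈ K` are exactly the
`K`-linear combinations. So all the classes over `K` in `H^{2m}_dR(Y) ∩ (2πi)^m H^{2m}(Y, ℚ)`, for all the varieties `Y` as above
and all `m`, are combinations of products of divisor classes; for `w ≠ 2m` there are none but zero.

1. (Pairs suffice.) For every `n` there is a degree `d` such that for ANY number `N` of polarised de Rham-Betti objects of rank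
`n` and odd weight, over any field `K` of algebraic numbers: if all polynomial relations of degree at most `d` over `K` between
the periods of any TWO of them are consequences of the polarisations then `CyclesGPC` is true for the sum of ALL of them: there
are no other de Rham-Betti classes, in all tensor powers of the sum. Relations between the periods of three or more of the
objects do not have to be considered.

2. (Almost all products, any number of factors.) Let `f_1, …, f_L ∈ ℚ[X]` be monic of degree `n = 2 g` with `n` distinct real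
roots which are not zero. For every `D` there are `c > 0` and `M` such that for ALL `N` and `T`, and all choices `θ` of the
polynomials, for all but `N² M T^(N - c)` of the tuples `(t_1, …, t_N)` of natural numbers `t_j ≤ T` the curves
`C_j : y² = f_θ(j)(x) (x - 1 / t_j)` have this property for **all number fields** `K` of degree at most `D`. The constants do not
depend on the number `N` of the curves; so for `N = T^{c/3}` curves, too, almost all products have the property. Moreover there
are `D(T) → ∞` and `δ(T) → 0` such that for all `N` and for all but `N² δ(T) T^N` of the tuples with `t_j ≤ T` it holds for all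
number fields of degree at most `D(T)`.

3. (All products in windows.) Let `f` be as in 2. There is `G0` such that for all `G ≥ G0` and all `D` there is `E` such that for
all `H` and `t ≥ (H + 2)^E` there is a set `S` of at most `dim GSp_n = n (n + 1) / 2 + 1` integers such that **all** the products of
**any number** of different curves `y² = f(x) (x - 1 / (t - G u))`, `1 ≤ u ≤ H`, `u ∉ S`, have this property for all number fields
of degree at most `D`. In particular this is true for the product of all these `≥ H - n (n + 1) / 2 - 1` curves. `E` does not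
depend on the number of the factors.

The theorem `MP_bf54cf_ag.HyperellipticPowers` of this run has (1) with relations of degree `≤ d` between all the objects, and (2),
(3) for a fixed number of factors, with constants depending on it in an unspecified way. The proof of 1
(`Pool/Agent/S821/GP1, GP2`, and `Pool/Agent/Y123/ST` of the starting library) is a form of the lemma of Goursat, Kolchin and
Ribet for subtorsors: the group on one side of a torsor is defined over `K`, and the Lie algebra of the smallest subtorsor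
contains `sp` in each block because its projections to two blocks do. The classes with coefficients in `K`
(`Pool/Agent/S821/GR2`) need the first fundamental theorem over `K`.
-/

set_option autoImplicit false

open Polynomial Matrix Filter

namespace Pool.Agent.Results.MP_bf54cf_ag.PairsSuffice

/-- `F` is a de Rham-Betti class of weight `m` over `K` in the tensor power `w` of the object with period matrix `c`: its
coefficients are in `K`, and `l^m F = c^{⊗ w} a` with `a` with values in `K`. -/
def IsClass {B : Type} [Fintype B] (K : Subfield ℂ) (l : ℂ) (c : Matrix B B ℂ) {w : ℕ} (m : ℕ) (F : (Fin w → B) → ℂ) :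
    Prop :=
  (∀ I, F I ∈ K) ∧ ∃ a : (Fin w → B) → ℂ, (∀ I, a I ∈ K) ∧ ∀ I, l ^ m * F I = ∑ J, (∏ k, c (I k) (J k)) * a J

/-- the alternating form with entries `2 (-1)^r` at `(r, s)`, `|r - s| = 1` -/
def polB (n : ℕ) : Matrix (Fin n) (Fin n) ℚ :=
  Matrix.of fun r s => if (r : ℕ) = s + 1 ∨ (s : ℕ) = r + 1 then 2 * (-1) ^ (r : ℕ) else 0

/-- the products, in pairs of tensor factors, of the polarisations of the summands `b 1, …, b m` -/
def polProducts (n N w m : ℕ) : Set ((Fin w → Fin n × Fin N) → ℚ) :=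
  {G | ∃ (e : Fin m × Fin 2 ≃ Fin w) (b : Fin m → Fin N), ∀ I, G I =
    ∏ i, if (I (e (i, 0))).2 = b i ∧ (I (e (i, 1))).2 = b i then polB n (I (e (i, 0))).1 (I (e (i, 1))).1 else 0}

/-- In all tensor powers of the sum of the objects with the period matrices `c j`, and for all weights, the de Rham-Betti
classes over `K` are exactly the combinations of the products of the polarisations: for rational classes with rational
coefficients, and for classes with coefficients in `K` with coefficients in `K`. -/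
def CyclesGPC {n N : ℕ} (K : Subfield ℂ) (l : ℂ) (c : Fin N → Matrix (Fin n) (Fin n) ℂ) : Prop :=
  ∀ w m : ℕ,
    (∀ F : (Fin w → Fin n × Fin N) → ℚ, IsClass K l (Matrix.blockDiagonal c) m (fun I => (F I : ℂ)) ↔
      F ∈ Submodule.span ℚ (polProducts n N w m)) ∧
    ∀ F : (Fin w → Fin n × Fin N) → ℂ, IsClass K l (Matrix.blockDiagonal c) m F ↔
      F ∈ Submodule.span K ((fun G I => (G I : ℂ)) '' polProducts n N w m)

/-- the period matrices `X_j` respect the polarisations, with multiplier `μ` -/
def Respects {n N : ℕ} (Q : Fin N → Matrix (Fin n) (Fin n) ℂ) (X : Fin N → Matrix (Fin n) (Fin n) ℂ) (μ : ℂ) : Prop :=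
  ∀ j, X j * Q j * (X j)ᵀ = μ • (polB n).map (algebraMap ℚ ℂ)

/-- the value of a polynomial over `K` at the entries of the matrices `X_j` -/
noncomputable def value {n N : ℕ} {K : Subfield ℂ} (X : Fin N → Matrix (Fin n) (Fin n) ℂ)
    (P : MvPolynomial (Fin N × Fin n × Fin n) K) : ℂ :=
  MvPolynomial.eval (fun s => X s.1 s.2.1 s.2.2) (MvPolynomial.map (algebraMap K ℂ) P)

/-- all relations of degree at most `d` over `K` between the entries of the matrices `c_j` are consequences of the
polarisations -/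
def NoRelation {n N : ℕ} (K : Subfield ℂ) (Q c : Fin N → Matrix (Fin n) (Fin n) ℂ) (d : ℕ) : Prop :=
  ∀ P : MvPolynomial (Fin N × Fin n × Fin n) K, P.totalDegree ≤ d → value c P = 0 →
    ∀ (X : Fin N → Matrix (Fin n) (Fin n) ℂ) (μ : ℂ), μ ≠ 0 → Respects Q X μ → value X P = 0

/-- the branch points: `t` inserted at place `m` in the sequence of the `a i` -/
noncomputable def branch {n : ℕ} (a : Fin n → ℝ) (m : Fin (n + 1)) (t : ℝ) : Fin (n + 1) → ℝ :=
  Fin.insertNth (α := fun _ => ℝ) m t a

/-- the period `∮ x^j dx / y`, `y² = ∏ (x - e i)`, over the loop around the segment `[e l, e (l + 1)]`, that is twice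
the integral over the segment (principal branch of the square root) -/
noncomputable def period {n : ℕ} (e : Fin (n + 1) → ℝ) (l j : Fin n) : ℂ :=
  2 * ∫ x in (e l.castSucc)..(e l.succ), (x : ℂ) ^ (j : ℕ) / (((∏ i, (x - e i) : ℝ) : ℂ) ^ (1 / 2 : ℂ))

/-- The curves `y² = ∏_i (x - e j i)`, `j < N`, have the property for all number fields of degree at most `D`. -/
def CurvesGPC {n N : ℕ} (D : ℕ) (e : Fin N → Fin (n + 1) → ℝ) : Prop :=
  ∀ K : Subfield ℂ, FiniteDimensional ℚ K → Module.finrank ℚ K ≤ D →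
    CyclesGPC K (2 * Real.pi * Complex.I) (fun j => Matrix.of (period (e j)))

/-- rational elements of the span over `K` of rational vectors -/
theorem descent {K : Subfield ℂ} {X : Type} {S : Set (X → ℚ)} {F : X → ℚ}
    (h : (fun x => (F x : ℂ)) ∈ Submodule.span K ((fun G x => (G x : ℂ)) '' S)) : F ∈ Submodule.span ℚ S := by
  obtain ⟨φ, hφ⟩ := LinearMap.exists_leftInverse_of_injective (LinearMap.toSpanSingleton ℚ ℂ 1)
    (LinearMap.ker_toSpanSingleton ℚ one_ne_zero)
  have h1 : ∀ q : ℚ, ∀ z : ℂ, φ (z * q) = q * φ z := by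
    intro q z
    have h2 : z * (q : ℂ) = q • z := by rw [Rat.smul_def, mul_comm]
    rw [h2, map_smul, smul_eq_mul]
  have h2 : φ 1 = 1 := by
    have h3 := LinearMap.congr_fun hφ (1 : ℚ)
    simpa using h3
  have key : ∀ H ∈ Submodule.span K ((fun (G : X → ℚ) x => (G x : ℂ)) '' S), ∀ z : ℂ,
      (fun x => φ (z * H x)) ∈ Submodule.span ℚ S := by
    intro H hH
    induction hH using Submodule.span_induction with
    | mem H hH =>
      intro z
      obtain ⟨G, hG, rfl⟩ := hH
      have h3 : (fun x => φ (z * (G x : ℂ))) = φ z • G := by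
        funext x
        rw [h1, Pi.smul_apply, smul_eq_mul, mul_comm]
      rw [h3]
      exact Submodule.smul_mem _ _ (Submodule.subset_span hG)
    | zero =>
      intro z
      have h3 : (fun x : X => φ (z * (0 : X → ℂ) x)) = 0 := by
        funext x
        rw [Pi.zero_apply, mul_zero, map_zero]
        rfl
      rw [h3]
      exact Submodule.zero_mem _
    | add H H' _ _ h3 h4 =>
      intro z
      have h5 : (fun x => φ (z * (H + H') x)) = (fun x => φ (z * H x)) + fun x => φ (z * H' x) := by
        funext x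
        rw [Pi.add_apply, Pi.add_apply, mul_add, map_add]
      rw [h5]
      exact Submodule.add_mem _ (h3 z) (h4 z)
    | smul k H _ h3 =>
      intro z
      have h4 : (fun x => φ (z * (k • H) x)) = fun x => φ (z * k * H x) := by
        funext x
        rw [Pi.smul_apply, mul_assoc]
        rfl
      rw [h4]
      exact h3 _
  have h3 := key _ h 1
  have h4 : (fun x => φ (1 * (F x : ℂ))) = F := by
    funext x
    rw [h1, h2, mul_one]
  rwa [h4] at h3

theorem cycles {n N : ℕ} {K : Subfield ℂ} {Q c : Fin N → Matrix (Fin n) (Fin n) ℂ} {l : ℂ} (hn : Even n) (hn0 : 0 < n)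
    (hN : 0 < N) (hQ : ∀ j a b, Q j a b ∈ K) (hl : l ≠ 0) (hc : Respects Q c l)
    (h : Pool.Agent.Y123.ST.Om K (Matrix.blockDiagonal c) (Pool.Agent.Y123.ST.TB Q)) : CyclesGPC K l c := by
  intro w m
  have hbm : ∀ p q : Fin n, (polB n p q : ℂ) = -2 * Pool.Agent.Y118.HP.jm ℂ n p q := by
    intro p q
    have h1 := congrFun (congrFun (Pool.Agent.Y118.HP.bm_eq (n := n)) p) q
    exact h1
  have e2 : ∀ F : (Fin w → Fin n × Fin N) → ℂ, IsClass K l (Matrix.blockDiagonal c) m F ↔
      (∀ I, F I ∈ K) ∧ ∃ a : (Fin w → Fin n × Fin N) → ℂ, (∀ I, a I ∈ K) ∧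
        Pool.Agent.Y123.ST.tp (Fin w) (Matrix.blockDiagonal c) *ᵥ a = l ^ m • F := by
    intro F
    constructor
    · rintro ⟨h1, a, h2, h3⟩
      refine ⟨h1, a, h2, ?_⟩
      funext I
      exact (h3 I).symm
    · rintro ⟨h1, a, h2, h3⟩
      exact ⟨h1, a, h2, fun I => (congrFun h3 I).symm⟩
  -- the products of polarisations
  have e3 : ∀ F ∈ Submodule.span K (Pool.Agent.S821.GR.Pols n N (Fin w) m),
      F ∈ Submodule.span K ((fun (G : (Fin w → Fin n × Fin N) → ℚ) I => (G I : ℂ)) '' polProducts n N w m) := by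
    intro F hF
    refine (Submodule.span_le.2 ?_) hF
    rintro _ ⟨e, b, rfl⟩
    have h2 : ((-2 : K) ^ m : K) ≠ 0 := pow_ne_zero _ (by norm_num)
    have h3 : (Pool.Agent.S821.GR.prodT e fun l => Pool.Agent.S821.GR.E2 N (b l) (b l) (Pool.Agent.Y118.HP.jm ℂ n)) =
        ((-2 : K) ^ m)⁻¹ • fun I : Fin w → Fin n × Fin N =>
          ((∏ i, if (I (e (i, 0))).2 = b i ∧ (I (e (i, 1))).2 = b i then polB n (I (e (i, 0))).1 (I (e (i, 1))).1 else 0 : ℚ) : ℂ) := by
      rw [eq_inv_smul_iff₀ h2]
      funext I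
      rw [Pi.smul_apply]
      have h4 : ∀ z : ℂ, ((-2 : K) ^ m : K) • z = (∏ _i : Fin m, (-2 : ℂ)) * z := by
        intro z
        rw [Finset.prod_const, Finset.card_univ, Fintype.card_fin]
        show (((-2 : K) ^ m : K) : ℂ) * z = _
        push_cast
        rfl
      rw [h4]
      show (∏ _i : Fin m, (-2 : ℂ)) * (∏ i, Pool.Agent.S821.GR.E2 N (b i) (b i) (Pool.Agent.Y118.HP.jm ℂ n)
        (I (e (i, 0))) (I (e (i, 1)))) = _
      rw [← Finset.prod_mul_distrib, Rat.cast_prod]
      refine Finset.prod_congr rfl fun i _ => ?_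
      show -2 * (if (I (e (i, 0))).2 = b i ∧ (I (e (i, 1))).2 = b i then
        Pool.Agent.Y118.HP.jm ℂ n (I (e (i, 0))).1 (I (e (i, 1))).1 else 0) = _
      split_ifs
      · rw [hbm]
      · simp
    rw [h3]
    exact Submodule.smul_mem _ _ (Submodule.subset_span ⟨_, ⟨e, b, fun I => rfl⟩, rfl⟩)
  -- the products of polarisations are products of pair classes
  have e4 : ∀ F ∈ Submodule.span K ((fun (G : (Fin w → Fin n × Fin N) → ℚ) I => (G I : ℂ)) '' polProducts n N w m),
      F ∈ Submodule.span K (Pool.Agent.S821.GR.Prods K l (Matrix.blockDiagonal c) (Fin w) m) := by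
    intro F hF
    refine (Submodule.span_le.2 ?_) hF
    rintro _ ⟨G, ⟨e, b, hG⟩, rfl⟩
    refine Submodule.subset_span ⟨e, fun i => Pool.Agent.S821.GR.E2 N (b i) (b i) ((polB n).map (algebraMap ℚ ℂ)),
      fun i => Pool.Agent.S821.GR.E2 N (b i) (b i) (Q (b i)), fun _ => 1, fun i => ⟨?_,
      Pool.Agent.S821.GR.E2_memK (hQ _) _ _, one_ne_zero, by rw [one_pow]; exact K.one_mem, ?_⟩, ?_, funext fun I => ?_⟩
    · exact Pool.Agent.S821.GR.E2_memK (fun p q => SubfieldClass.ratCast_mem K _) _ _
    · rw [mul_one]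
      show l • _ = Pool.Agent.Y123.ST.bd c * _ * (Pool.Agent.Y123.ST.bd c)ᵀ
      rw [Pool.Agent.S821.GR.bd_E2, Pool.Agent.S821.GR.E2_bd, Pool.Agent.S821.GR.E2_smul, hc]
    · rw [Finset.prod_const_one]
      exact K.one_mem
    · beta_reduce
      rw [hG I, Rat.cast_prod]
      refine Finset.prod_congr rfl fun i _ => ?_
      show _ = if (I (e (i, 0))).2 = b i ∧ (I (e (i, 1))).2 = b i then
        (polB n (I (e (i, 0))).1 (I (e (i, 1))).1 : ℂ) else 0
      split_ifs
      · rfl
      · simp
  have h1 : ∀ F : (Fin w → Fin n × Fin N) → ℂ, IsClass K l (Matrix.blockDiagonal c) m F ↔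
      F ∈ Submodule.span K ((fun (G : (Fin w → Fin n × Fin N) → ℚ) I => (G I : ℂ)) '' polProducts n N w m) := by
    intro F
    constructor
    · intro hF
      obtain ⟨h1, a, h2, h3⟩ := (e2 F).1 hF
      exact e3 F (Pool.Agent.S821.GS.cls_of_om hn hn0 hN hQ hl hc h h2 h1 h3)
    · intro hF
      exact (e2 F).2 (Pool.Agent.S821.GR.cls_of_prods (e4 F hF))
  refine ⟨fun F => ⟨fun hF => descent ((h1 _).1 hF), fun hF => (h1 _).2 ?_⟩, h1⟩
  induction hF using Submodule.span_induction with
  | mem G hG => exact Submodule.subset_span ⟨G, hG, rfl⟩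
  | zero =>
    have h2 : (fun I => (((0 : (Fin w → Fin n × Fin N) → ℚ) I : ℚ) : ℂ)) = 0 := by
      funext I
      simp
    rw [h2]
    exact Submodule.zero_mem _
  | add x y _ _ hx hy =>
    have h2 : (fun I => (((x + y) I : ℚ) : ℂ)) = (fun I => (x I : ℂ)) + fun I => (y I : ℂ) := by
      funext I
      simp
    rw [h2]
    exact Submodule.add_mem _ hx hy
  | smul q x _ hx =>
    have h2 : (fun I => (((q • x) I : ℚ) : ℂ)) = (q : K) • fun I => (x I : ℂ) := by
      funext I
      rw [Pi.smul_apply, Pi.smul_apply, smul_eq_mul, Rat.cast_mul]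
      show _ = ((q : K) : ℂ) * _
      simp
    rw [h2]
    exact Submodule.smul_mem _ _ hx

/-- a diagonal sequence -/
theorem exists_diag (f : ℕ → ℕ → ℝ) (hf : ∀ D, Tendsto (f D) atTop (nhds 0)) :
    ∃ g : ℕ → ℕ, Tendsto g atTop atTop ∧ Tendsto (fun N => f (g N) N) atTop (nhds 0) := by
  classical
  have h1 : ∀ D : ℕ, ∃ M : ℕ, ∀ N ≥ M, |f D N| ≤ 1 / ((D : ℝ) + 1) := by
    intro D
    have h2 := (hf D).abs
    rw [abs_zero] at h2
    have h3 : ∀ᶠ N in atTop, |f D N| < 1 / ((D : ℝ) + 1) := h2.eventually (gt_mem_nhds (by positivity))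
    obtain ⟨M, hM⟩ := eventually_atTop.1 h3
    exact ⟨M, fun N hN => (hM N hN).le⟩
  choose M hM using h1
  let p : ℕ → ℕ → Prop := fun N D => ∀ D' ≤ D, M D' ≤ N
  let g : ℕ → ℕ := fun N => Nat.findGreatest (p N) N
  have hg1 : ∀ D₀ : ℕ, ∃ N₀ : ℕ, ∀ N ≥ N₀, D₀ ≤ g N ∧ p N (g N) := by
    intro D₀
    refine ⟨D₀ + ∑ D' ∈ Finset.range (D₀ + 1), M D', fun N hN => ?_⟩
    have h2 : p N D₀ := by
      intro D' hD'
      have h3 : M D' ≤ ∑ D' ∈ Finset.range (D₀ + 1), M D' :=
        Finset.single_le_sum (f := M) (fun _ _ => Nat.zero_le _) (Finset.mem_range.2 (by omega))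
      omega
    have h4 : D₀ ≤ N := by omega
    exact ⟨Nat.le_findGreatest h4 h2, Nat.findGreatest_spec (P := p N) h4 h2⟩
  have hgt : Tendsto g atTop atTop := by
    rw [tendsto_atTop_atTop]
    intro D₀
    obtain ⟨N₀, hN₀⟩ := hg1 D₀
    exact ⟨N₀, fun N hN => (hN₀ N hN).1⟩
  refine ⟨g, hgt, ?_⟩
  rw [tendsto_zero_iff_abs_tendsto_zero]
  have h5 : Tendsto (fun N => 1 / (((g N : ℕ) : ℝ) + 1)) atTop (nhds 0) :=
    tendsto_one_div_add_atTop_nhds_zero_nat.comp hgt
  refine squeeze_zero' (Eventually.of_forall fun N => abs_nonneg _) ?_ h5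
  obtain ⟨N₀, hN₀⟩ := hg1 0
  filter_upwards [eventually_ge_atTop N₀] with N hN
  exact hM (g N) N ((hN₀ N hN).2 (g N) le_rfl)

/-- **The period conjecture for cycles on products of any number of hyperelliptic curves.** (1) relations of bounded degree
between two objects suffice; (2) almost all products, the number of the exceptions depends on the number `N` of the factors only
by `N²`; (3) all products of any number of different curves of a window. -/
theorem result :
    -- 1: pairs suffice
    (∀ n : ℕ, Even n → 0 < n → ∃ d : ℕ, ∀ (N : ℕ) (K : Subfield ℂ) (Q c : Fin N → Matrix (Fin n) (Fin n) ℂ) (l : ℂ),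
      0 < N → (∀ x ∈ K, IsAlgebraic ℚ x) → (∀ j a b, Q j a b ∈ K) → Transcendental ℚ l → Respects Q c l →
      (∀ j, NoRelation K (fun _ : Fin 1 => Q j) (fun _ : Fin 1 => c j) d) →
      (∀ i j, i ≠ j → NoRelation K (fun k => Q ((![i, j] : Fin 2 → Fin N) k)) (fun k => c ((![i, j] : Fin 2 → Fin N) k)) d) →
      CyclesGPC K l c) ∧
    -- 2: almost all products of any number of hyperelliptic curves
    (∀ (n L : ℕ), Even n → 0 < n → 0 < L → ∀ (a : Fin L → Fin n → ℝ) (f : Fin L → ℚ[X]) (m : Fin L → Fin (n + 1)),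
      (∀ j, (f j).map (algebraMap ℚ ℝ) = ∏ i, (X - C (a j i))) → (∀ j, StrictMono (branch (a j) (m j) 0)) →
      (∀ D : ℕ, ∃ c M : ℝ, 0 < c ∧ ∀ (N T : ℕ) (θ : Fin N → Fin L), 0 < N → 1 ≤ T → ∃ S : Finset (Fin N → ℕ),
        (S.card : ℝ) ≤ N ^ 2 * (M * (T : ℝ) ^ ((N : ℝ) - c)) ∧ ∀ t : Fin N → ℕ, (∀ j, 1 ≤ t j ∧ t j ≤ T) → t ∉ S →
          (∀ j, StrictMono (branch (a (θ j)) (m (θ j)) (1 / (t j : ℝ)))) ∧
          CurvesGPC D fun j => branch (a (θ j)) (m (θ j)) (1 / (t j : ℝ))) ∧
      ∃ (D : ℕ → ℕ) (δ : ℕ → ℝ), Tendsto D atTop atTop ∧ Tendsto δ atTop (nhds 0) ∧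
        ∀ (N T : ℕ) (θ : Fin N → Fin L), 0 < N → 1 ≤ T → ∃ S : Finset (Fin N → ℕ),
          (S.card : ℝ) ≤ N ^ 2 * (δ T * (T : ℝ) ^ N) ∧ ∀ t : Fin N → ℕ, (∀ j, 1 ≤ t j ∧ t j ≤ T) → t ∉ S →
            (∀ j, StrictMono (branch (a (θ j)) (m (θ j)) (1 / (t j : ℝ)))) ∧
            CurvesGPC (D T) fun j => branch (a (θ j)) (m (θ j)) (1 / (t j : ℝ))) ∧
    -- 3: all products of any number of curves of a window
    (∀ n : ℕ, Even n → 0 < n → ∀ (a : Fin n → ℝ) (f : ℚ[X]) (m : Fin (n + 1)),
      f.map (algebraMap ℚ ℝ) = ∏ i, (X - C (a i)) → StrictMono (branch a m 0) →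
      ∃ G0 : ℕ, ∀ G : ℕ, G0 ≤ G → ∀ D : ℕ, ∃ E : ℕ, ∀ H t : ℕ, (H + 2) ^ E ≤ t →
        (∀ u : ℕ, u ≤ H → G * u < t ∧ StrictMono (branch a m (1 / ((t : ℝ) - G * u)))) ∧
        ∃ S : Finset ℕ, 2 * S.card ≤ n * (n + 1) + 2 ∧
          ∀ (k : ℕ) (u : Fin k → ℕ), 0 < k → Function.Injective u → (∀ j, 1 ≤ u j ∧ u j ≤ H ∧ u j ∉ S) →
            CurvesGPC D fun j => branch a m (1 / ((t : ℝ) - G * u j))) := by
  have hπ : (2 * Real.pi * Complex.I : ℂ) ≠ 0 := by
    intro h
    apply Pool.Agent.Y123.ST.transc_two_pi_I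
    rw [h]
    exact isAlgebraic_zero
  refine ⟨?_, ?_, ?_⟩
  · intro n hn hn0
    obtain ⟨d, hd⟩ := Pool.Agent.S821.GP.crit_out2 n hn hn0
    refine ⟨d, fun N K Q c l hN hK hQ hl hc hr1 hr2 => ?_⟩
    have hl0 : l ≠ 0 := by
      rintro rfl
      exact hl isAlgebraic_zero
    exact cycles hn hn0 hN hQ hl0 hc (hd N K Q c l hN hK hQ hl hc hr1 hr2)
  · intro n L hn hn0 hL a f m hf h0
    have h2 : ∀ D : ℕ, ∃ c M : ℝ, 0 < c ∧ ∀ (N T : ℕ) (θ : Fin N → Fin L), 0 < N → 1 ≤ T → ∃ S : Finset (Fin N → ℕ),
        (S.card : ℝ) ≤ N ^ 2 * (M * (T : ℝ) ^ ((N : ℝ) - c)) ∧ ∀ t : Fin N → ℕ, (∀ j, 1 ≤ t j ∧ t j ≤ T) → t ∉ S →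
          (∀ j, StrictMono (branch (a (θ j)) (m (θ j)) (1 / (t j : ℝ)))) ∧
          CurvesGPC D fun j => branch (a (θ j)) (m (θ j)) (1 / (t j : ℝ)) := by
      intro D
      obtain ⟨c, M, hc, h1⟩ := Pool.Agent.S821.GS.tuples hn hn0 hL hf h0 D
      refine ⟨c, M, hc, fun N T θ hN hT => ?_⟩
      obtain ⟨S, hS, h2⟩ := h1 N T θ hN hT
      refine ⟨S, hS, fun t ht htS => ?_⟩
      obtain ⟨h3, h4, h5⟩ := h2 t ht htS
      exact ⟨h3, fun K hK hKD => cycles hn hn0 hN (fun j a' b' => SubfieldClass.ratCast_mem K _) hπ h4 (h5 K hK hKD)⟩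
    refine ⟨h2, ?_⟩
    choose c M hc hcount using h2
    obtain ⟨D, hD, hδ⟩ := exists_diag (fun D T => |M D| * (1 / (T : ℝ) ^ (c D))) (by
      intro D
      have h3 := (tendsto_rpow_atTop (hc D)).comp tendsto_natCast_atTop_atTop
      have h4 := (h3.inv_tendsto_atTop).const_mul |M D|
      rw [mul_zero] at h4
      refine h4.congr fun T => ?_
      rw [one_div]
      rfl)
    refine ⟨D, _, hD, hδ, fun N T θ hN hT => ?_⟩
    obtain ⟨S, hS, h4⟩ := hcount (D T) N T θ hN hT
    refine ⟨S, hS.trans ?_, h4⟩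
    have hT0 : (0 : ℝ) < T := by
      have : 0 < T := hT
      exact_mod_cast this
    refine mul_le_mul_of_nonneg_left ?_ (by positivity)
    rw [Real.rpow_sub hT0, Real.rpow_natCast]
    calc M (D T) * ((T : ℝ) ^ N / (T : ℝ) ^ (c (D T))) ≤ |M (D T)| * ((T : ℝ) ^ N / (T : ℝ) ^ (c (D T))) := by
          refine mul_le_mul_of_nonneg_right (le_abs_self _) (by positivity)
      _ = |M (D T)| * (1 / (T : ℝ) ^ (c (D T))) * (T : ℝ) ^ N := by ring
  · intro n hn hn0 a f m hf h0
    obtain ⟨G0, h1⟩ := Pool.Agent.S821.GS.windows hn hn0 a f hf m h0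
    refine ⟨G0, fun G hG D => ?_⟩
    obtain ⟨E, h2⟩ := h1 G hG D
    refine ⟨E, fun H t ht => ?_⟩
    obtain ⟨h3, S, h4, h5⟩ := h2 H t ht
    refine ⟨h3, S, h4, fun k u hk hu hu2 K hK hKD => ?_⟩
    obtain ⟨h6, h7⟩ := h5 k u hk hu hu2
    exact cycles hn hn0 hk (fun j a' b' => SubfieldClass.ratCast_mem K _) hπ h6 (h7 K hK hKD)

end Pool.Agent.Results.MP_bf54cf_ag.PairsSuffice
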