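import Pool.Agent.U400.RT.All
import Pool.Agent.U400.RT.Quartic

set_option autoImplicit false

/-!
# The Grothendieck period conjecture for the powers of abelian varieties of rank two over CM fields

Let `A` be an abelian variety over `ℚ̄`, such that the centre of `End(A) ⊗ ℚ` is a CM field `K`,
generated by an element `z` with `z̄ = -z`, and let `K⁺` be the maximal totally real subfield and `K⁻` the
space of the `x ∈ K` with `x̄ = -x`. Let `B` be the algebra of the endomorphisms of the rational vector
space `H_1(A, ℚ)` which commute with `End(A)`. We assume that `B` has *degree two* over `K`: `B` is the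
matrix algebra `M_2(K)` or a division algebra of dimension `4` over `K`. For example, `A` is simple,
`End(A) ⊗ ℚ = K` and `dim A = [K : ℚ]`.

Let `S` be a set of representatives, modulo `a ↦ -a`, of the real numbers `a` such that both `i a` and
`- i a` are eigenvalues of `z` on the tangent space of `A`: so `S` is the set of the places of `K⁺` at which
the unitary group of `B` is `U(1, 1)`; at the other places it is `U(2)`. Let `S` be nonempty. (It is
known that `S` is neither empty, since `A` is not of CM type, nor the set of all places, by a theorem of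
Shimura: otherwise `End(A)` would be larger.) We assume that one of the following conditions is true.

* (`Primitive`) `S` does not come from a proper subfield of `K⁺`: if `C ⊆ K⁺` is a subfield, such that
  it depends only on the restriction of a place to `C` whether the place is in `S`, then `C = K⁺`;
* (`Coprime`) the number of elements of `S` is prime to `[K⁺ : ℚ]`. (This implies the first condition.)
  For example, `S` has one element; or `[K⁺ : ℚ]` is a prime number, and `S` is arbitrary.

**Theorem.** Let one of the following conditions on the centre be true: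

1. (`SimpleCentre`) all relations `∑ n_j x_j = 0` between the conjugates `x_j` of an element `x ≠ 0` of
   `K⁻` hold for all elements of `K⁻`: equivalently, the odd functions `Hom(K, ℂ) → ℚ` are an
   irreducible representation of the Galois group. This is a condition only on `K`. It is satisfied
   if `K` is quartic or sextic and contains no imaginary quadratic field, if `K` is cyclic of degree
   `2 ^ k`, for the quaternion fields of degree `8`, and for all `K` such that the Galois group of `K`
   contains an element which exchanges one pair of conjugate embeddings, and fixes all others;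
2. (`QuarticCentre`) `[K : ℚ] = 4`, and `K` contains no imaginary quadratic field;
3. (`ControlledCentre`) there is an abelian variety `A'` with `A` as a factor, such that the centre of
   the Lie algebra of the Hodge group of `A'` is rigid, and acts on `A` through all elements of `K⁻`.
   If `K` is a quartic field which contains two imaginary quadratic fields, then this is true for `A' =
   A × E₁ × E₂`, where `E₁` and `E₂` are elliptic curves with complex multiplication by these fields.

Then for *all* natural numbers `m` and `n` every de Rham-Betti class in `H^1(A ^ n) ^ {⊗ 2 m} (m)` is a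
linear combination of products of Hodge classes in `H^1(A ^ n) ^ {⊗ 2} (1)`, and every class in
`H^{2 m}_Gr(A ^ n, ℚ(m))` is a linear combination of products of `m` divisor classes. So `GPC^m(A ^ n)`
is true for all `m` and `n`.

**Examples.** All abelian fourfolds with `End(A) ⊗ ℚ = K` a quartic CM field (then `S` has one element,
and 2 or 3 is satisfied); all abelian varieties of dimension six with `End(A) ⊗ ℚ = K` a
sextic CM field which contains no imaginary quadratic field (`S` has one or two elements); for a prime
number `p` all abelian varieties of dimension `2 p` such that `End(A) ⊗ ℚ = K` is a CM field of degree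
`2 p` which satisfies the condition 1; for all fields `K` which satisfy it, the fibres, over the points
with coordinates in `ℚ̄` and outside of proper special subvarieties, of the families of abelian varieties
on the Shimura varieties of `U(1, 1) ^ r × U(2) ^ s` if `r` is prime to `r + s`.

**What is new.** The theorem on powers in `UnitaryPowers` assumes for degree two that `i a` and `- i a`
are separated by the subalgebras of `B`, or that `B` is a division algebra and the places are
separated; for `B = M_2(K)` (so for all `A` with `End(A) ⊗ ℚ = K` and `dim A = [K : ℚ]`) neither is ever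
true. Moreover for degree two it gives nothing without control of the centre (case 3). `BallMotives`
and `PolydiscMotives` are about the derived group only. Here `B` is arbitrary, the separation is
replaced by a count of the places, and the centre is determined (`exists_centre`).

Nothing is assumed about periods: `AbVar` is the description of an abelian variety over `ℚ̄` by theta
functions (see `Pool/Agent/Y102/AVDefs.lean`, where it is explained why every abelian variety has it),
and the transcendence theorems which are used, the theorem of Schneider and Lang and the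
transcendence of `π`, are proved in this repository.

## The classes

The cohomology of the abelian variety `A ^ n` in degree `2 m` is the space of the alternating forms in
`2 m` variables on `H_1(A ^ n, ℚ) = H_1(A, ℚ) ^ n`, and `H^{2m}_dR(A ^ n / ℚ̄)` is the exterior power of
`H^1_dR(A ^ n / ℚ̄)`, which has a basis consisting of the elements `A.dR i` on the `n` factors
(`dRPow`). So `H^{2m}_Gr(A ^ n, ℚ(m))` is the space of the rational alternating forms `φ` such that
`(2 π i) ^ m φ` is a combination of products of elements of this basis, with algebraic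
coefficients (`IsDRB`). The variables are indexed by `Fin m × Fin 2`. A rational alternating form in two
variables which is a Hodge class is the class of a divisor, with rational coefficients, by the theorem of
Lefschetz (`IsDivisorClass`).

## Proof

Let `𝔩` be the Lie algebra of the endomorphisms of `H_1(A, ℚ)` which annihilate all de Rham-Betti
classes. By the theorem of Schneider and Lang `𝔩` acts semisimply, with the commutant `End(A) ⊗ ℚ`.

1. At a place of `S` the algebra `𝔩 ⊗ ℝ` acts irreducibly on a two-dimensional complex space with a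
   hermitian form of signature `(1, 1)` (`H2.coord`; the dimension is computed in `sq_le`). A perfect
   Lie algebra has dimension at least three, so `[𝔩, 𝔩] ⊗ ℝ` acts by `su(1, 1)` (`all_su`).
2. (`exists_trace`, `exists_centre`) **The centre of `𝔩` is not zero.** The determinant of the
   two-dimensional space gives a bilinear form `b` on `H_1(A, ℚ)` with complex values. If the trace of
   every element of `𝔩` is zero, then `b` is annihilated by `𝔩`, so the rational components of `b` are
   given by endomorphisms of `A`, and these commute with `z`. But `b (z u, v) = b (u, z v)`, and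
   so `b = 0`, a contradiction.
3. If the relations between the eigenvalues of a central element `X ∈ 𝔩` hold for `Y ∈ K⁻`, then `Y`
   annihilates all de Rham-Betti classes (`AbVar.kills_of_dom`). So in the cases 1 and 2 (`quartic_dom`)
   `K⁻ ⊆ 𝔩`. In the case 3 this follows from `AbVar.centre_le` for `A'`.
4. For `X`, `Y` in `L = [𝔩, 𝔩]` the element `XY + YX` is in `K⁺` (`anti_poly`: this can be checked at
   one place). From the identities `2 {X, Y} Z - 2 {X, Z} Y = [X, [Y, Z]]` and `{X, Y} [U, V] = [{X, Y} U,
   V]` it follows that the class of `{X, Y} [U, V]` modulo `L` is symmetric in `Y`, `U` and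
   antisymmetric in `U`, `V`, hence zero, so `L` is stable under multiplication by the elements
   `{X, Y}` (`mul_closed`). Let `C` be the field of the elements `c ∈ K⁺` with `c L ⊆ L`.
5. If a place is in `S`, then `X ^ 2` is positive there for some `X ∈ L` (`exists_pos`); if it is not in
   `S`, then `X ^ 2` is negative or zero for all `X ∈ L` (`neg_of_definite`). As `X ^ 2 ∈ C`, it depends
   only on the restriction of the place to `C` whether it is in `S` (`H2.csub`). So `C = K⁺`.
   Counting the embeddings of `K⁺` with a given restriction to `C` one sees that this is true if the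
   number of the places in `S` is prime to `[K⁺ : ℚ]` (`prim_of_coprime`).
6. The algebra `B` is generated by `𝔩`, so `B = K + K L`. Taking the skew elements with trace zero over
   `K` one finds that `L = K⁺ L` is the Lie algebra `su(B)` (`UU_le`).
7. So `𝔩` is the Lie algebra of the full unitary group of `B`, and the first fundamental theorem for
   products of general linear groups gives the invariants of all degrees (`main_all'`).
-/

open Module Matrix Pool.Agent.Y102 Pool.Agent.W516.DR Pool.Agent.H204R3.GP

noncomputable section

namespace Pool.Agent.Results.MP_bf54cf_ag.RankTwoUnitary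

variable {g : ℕ} (A : AbVar g)

/-! ### The field `K = ℚ[z]` -/

/-- `P` is an endomorphism of `A` (up to isogeny), in terms of its action on `H_1(A, ℚ)`: it respects
the de Rham structure. (By the theorem of Bost, which is proved in `Pool.Agent.Y102.AbVar.hodge_end`,
these are the elements of `End(A) ⊗ ℚ`.) -/
def IsEndo (P : Module.End ℚ A.H1) : Prop := IsDeRhamBettiEnd QBar A.dR P

/-- The endomorphism `X` of `H_1(A, ℚ)` commutes with the endomorphisms of `A`. -/
def Commutes (X : Module.End ℚ A.H1) : Prop := ∀ P, IsEndo A P → X * P = P * X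

/-- `X` is an element of `ℚ[z]`: a polynomial in `z`. -/
def InField (z X : Module.End ℚ A.H1) : Prop := ∃ q : Polynomial ℚ, X = Polynomial.aeval z q

/-- `X` is an element of `K⁻`: a polynomial in `z` which is skew-symmetric for the polarization. -/
def InMinus (z X : Module.End ℚ A.H1) : Prop :=
  InField A z X ∧ ∀ u v, A.om (X u) v + A.om u (X v) = 0

/-- `X` is an element of `K⁺`: a polynomial in `z` which is symmetric for the polarization. -/
def InPlus (z X : Module.End ℚ A.H1) : Prop :=
  InField A z X ∧ ∀ u v, A.om (X u) v = A.om u (X v)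

/-- The centre of the algebra of the endomorphisms is the field `ℚ[z]`, and `z` is skew-symmetric. -/
structure CentreField (z : Module.End ℚ A.H1) : Prop where
  endo : IsEndo A z
  central : Commutes A z
  generates : ∀ P, IsEndo A P → Commutes A P → InField A z P
  skew : ∀ u v, A.om (z u) v + A.om u (z v) = 0
  nonzero : z ≠ 0
  /-- the nonzero elements of `ℚ[z]` are injective -/
  field : ∀ X, InField A z X → X ≠ 0 → Function.Injective X

/-! ### The places -/

/-- `i a` is an eigenvalue of `z` on the tangent space; here `H_1(A, ℝ) = ℂ ^ g` is the tangent space,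
and `A.ext z` is the real linear extension of `z`. -/
def IsEigenvalue (z : Module.End ℚ A.H1) (a : ℝ) : Prop :=
  ∃ x : Fin g → ℂ, x ≠ 0 ∧ A.ext z x = ((a : ℂ) * Complex.I) • x

/-- The nonempty set `S` represents the indefinite places: `± S` is the set of the numbers `a` such
that `i a` and `- i a` are eigenvalues of `z` on the tangent space. -/
structure Places (z : Module.End ℚ A.H1) (S : Finset ℝ) : Prop where
  nonempty : S.Nonempty
  disjoint : ∀ a ∈ S, -a ∉ S
  indefinite : ∀ a : ℝ, (a ∈ S ∨ -a ∈ S) ↔ (IsEigenvalue A z a ∧ IsEigenvalue A z (-a))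

/-- **Primitive sets of places**: let `C` be a subfield of `K⁺`, such that all the places which have the
same restriction to `C` as a place in `S` are in `S`. Then `C = K⁺`. (The place given by `a` is
the embedding of `K⁺` which maps `q(z)` to `q(i a)`; here `i a` or `- i a` is an eigenvalue of `z` on the
tangent space.) -/
def Primitive (z : Module.End ℚ A.H1) (S : Finset ℝ) : Prop :=
  ∀ C : Subalgebra ℚ (Module.End ℚ A.H1), (∀ X ∈ C, InPlus A z X) →
    (∀ a b : ℝ, (a ∈ S ∨ -a ∈ S) → (IsEigenvalue A z b ∨ IsEigenvalue A z (-b)) →
      (∀ q : Polynomial ℚ, Polynomial.aeval z q ∈ C →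
        Polynomial.aeval ((a : ℂ) * Complex.I) q = Polynomial.aeval ((b : ℂ) * Complex.I) q) →
      (b ∈ S ∨ -b ∈ S)) →
    ∀ X, InPlus A z X → X ∈ C

/-- **Rank two**: the centre of the endomorphism algebra is the field `K = ℚ[z]`, the commutant of
the endomorphisms is of degree two over `K`, `S` represents the indefinite places, and it is primitive,
or the number of its elements is prime to `[K⁺ : ℚ]`. -/
structure RankTwo (z : Module.End ℚ A.H1) (S : Finset ℝ) : Prop where
  centre : CentreField A z
  /-- the commutant of the endomorphisms is of dimension `4` over `ℚ[z]` -/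
  degree : Set.finrank ℚ {X | Commutes A X} = 2 ^ 2 * Set.finrank ℚ {X | InField A z X}
  places : Places A z S
  primitive : Primitive A z S ∨ Nat.Coprime S.card (Set.finrank ℚ {X | InPlus A z X})

/-! ### The centre -/

/-- The algebra of the endomorphisms of `H_1(A, ℂ)`, as matrices for the basis of the lattice. -/
def toC (X : Module.End ℚ A.H1) : Matrix (Fin (2 * g)) (Fin (2 * g)) ℂ :=
  Matrix.of fun i j => (X (Pi.single j 1) i : ℂ)

/-- All relations `∑ i, x i = 0` between eigenvalues of `X` imply the relation `∑ i, y i = 0` between
the eigenvalues of `Y` for the same eigenvectors. -/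
def RelationsOf (X Y : Module.End ℚ A.H1) : Prop :=
  ∀ (r : ℕ) (v : Fin r → Fin (2 * g) → ℂ) (x y : Fin r → ℂ),
    (∀ i, v i ≠ 0 ∧ Matrix.mulVec (toC A X) (v i) = x i • v i ∧
      Matrix.mulVec (toC A Y) (v i) = y i • v i) → ∑ i, x i = 0 → ∑ i, y i = 0

/-- `K⁻` is simple: the relations between the eigenvalues of a nonzero element of `K⁻` hold for all
elements of `K⁻`. -/
def SimpleCentre (z : Module.End ℚ A.H1) : Prop :=
  ∀ X Y, InMinus A z X → InMinus A z Y → X ≠ 0 → RelationsOf A X Y

/-- `K` is a quartic field which contains no imaginary quadratic field: the squares of the nonzero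
elements of `K⁻` are not rational numbers. -/
def QuarticCentre (z : Module.End ℚ A.H1) : Prop :=
  Set.finrank ℚ {X | InField A z X} = 4 ∧ ∀ X, InMinus A z X → X ≠ 0 → ∀ c : ℚ, X * X ≠ c • 1

/-- The multilinear forms in `2m` variables in the rational homology. -/
abbrev Form (m : ℕ) : Type := MultilinearMap ℚ (fun _ : Fin m × Fin 2 => A.H1) ℚ

/-- `X` is in the Lie algebra `𝔤` of the Hodge group: it annihilates (as a derivation) all classes in
`H^1(A) ^ {⊗ 2m} (m)` that are Hodge classes and de Rham-Betti classes. -/
def InLie (X : Module.End ℚ A.H1) : Prop :=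
  ∀ (m : ℕ) (φ : Form A m), IsHodgeTensor (A.per : A.H1 →+ (Fin g → ℂ)) φ →
    IsDeRhamBettiForm QBar A.dR (2 * Real.pi * Complex.I) m φ →
    ∀ v, ∑ k, φ (Function.update v k (X (v k))) = 0

/-- `X` is an element of the centre of `𝔤`. -/
def InCentre (X : Module.End ℚ A.H1) : Prop := InLie A X ∧ ∀ Y, InLie A Y → Y * X = X * Y

/-- The endomorphisms which commute with `X` and with the derived algebra of `𝔤` commute with the
centre of `𝔤`. -/
def Generates (X : Module.End ℚ A.H1) : Prop :=
  ∀ T : Module.End ℚ A.H1,
    (∀ Y, InLie A Y → ∀ Z, InLie A Z → T * (Y * Z - Z * Y) = (Y * Z - Z * Y) * T) →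
    T * X = X * T → ∀ Z, InCentre A Z → T * Z = Z * T

/-- The centre of `𝔤` is rigid: the relations between the eigenvalues of a generating element of the
centre hold for all elements of the centre. -/
def RigidCentre : Prop :=
  ∀ X, InCentre A X → Generates A X → ∀ Y, InCentre A Y → RelationsOf A X Y

/-- `A` is a factor of `A'` (up to isogeny): `π` is a homomorphism `A' → A`, in terms of the rational
homology, and `ι` is a section of `π`. -/
structure IsFactor {g' : ℕ} (A' : AbVar g') (ι : A.H1 →ₗ[ℚ] A'.H1) (π : A'.H1 →ₗ[ℚ] A.H1) :
    Prop where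
  section_ : ∀ v, π (ι v) = v
  homomorphism : ∃ a : Fin g ⊕ Fin g → Fin g' ⊕ Fin g' → QBar, ∀ i w, A.dR i (π w) =
    ∑ j, algebraMap QBar ℂ (a i j) * A'.dR j w

/-- `A` is a factor of an abelian variety `A'` such that the centre of the Lie algebra of the Hodge
group of `A'` is rigid and acts on `A` through all elements of `K⁻`. -/
def ControlledCentre (z : Module.End ℚ A.H1) : Prop :=
  ∃ (g' : ℕ) (A' : AbVar g') (ι : A.H1 →ₗ[ℚ] A'.H1) (π : A'.H1 →ₗ[ℚ] A.H1),
    IsFactor A A' ι π ∧ RigidCentre A' ∧
    ∀ x, InMinus A z x → ∃ X, InCentre A' X ∧ ∀ v, π (X (ι v)) = x v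

/-! ### The classes on the powers -/

/-- The inclusion of the rational homology of `A ^ n` in the tangent space. -/
def perPow (n : ℕ) : (Fin n → A.H1) →+ (Fin n → Fin g → ℂ) where
  toFun v j := A.per (v j)
  map_zero' := by
    funext j
    exact map_zero _
  map_add' u v := by
    funext j
    exact map_add _ _ _

/-- The basis of `H^1_dR(A ^ n / ℚ̄)`. -/
def dRPow (n : ℕ) (i : (Fin g ⊕ Fin g) × Fin n) : (Fin n → A.H1) →ₗ[ℚ] ℂ :=
  (A.dR i.1).comp (LinearMap.proj i.2)

/-- `H^1(A ^ n, ℚ) ^ {⊗ 2m}`: the multilinear forms in `2 m` variables in `H_1(A ^ n, ℚ)`. -/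
abbrev TensorPow (m n : ℕ) : Type := MultilinearMap ℚ (fun _ : Fin m × Fin 2 => Fin n → A.H1) ℚ

/-- `H^{2m}(A ^ n, ℚ)`: the alternating forms in `2 m` variables in `H_1(A ^ n, ℚ)`. -/
abbrev Cohomology (m n : ℕ) : Type := (Fin n → A.H1) [⋀^Fin m × Fin 2]→ₗ[ℚ] ℚ

/-- The bilinear forms on `H_1(A ^ n, ℚ)`. -/
abbrev Bilinear (n : ℕ) : Type := (Fin n → A.H1) →ₗ[ℚ] (Fin n → A.H1) →ₗ[ℚ] ℚ

/-- `φ` is a de Rham-Betti class in `H^1(A ^ n) ^ {⊗ 2m} (m)`. -/
def IsDRB {m n : ℕ} (φ : TensorPow A m n) : Prop :=
  IsDeRhamBettiForm QBar (dRPow A n) (2 * Real.pi * Complex.I) m φ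

/-- `φ` is an element of `H^{2m}_Gr(A ^ n, ℚ(m))`. -/
def IsGr {m n : ℕ} (φ : Cohomology A m n) : Prop := IsDRB A φ.toMultilinearMap

/-- `φ` is a linear combination of products of Hodge classes in `H^1(A ^ n) ^ {⊗ 2} (1)`, where the
`2 m` variables are distributed in some way. -/
def IsDecomposable {m n : ℕ} (φ : TensorPow A m n) : Prop :=
  φ ∈ Submodule.span ℚ {ψ | IsProductOfHodgeBilinear (perPow A n) ψ}

/-- The alternating bilinear form `b` is a Hodge class in `H^2(A ^ n) (1)`, that is (Lefschetz), a
rational multiple of the class of a divisor. -/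
def IsDivisorClass {n : ℕ} (b : Bilinear A n) : Prop :=
  IsHodgeBilinear (perPow A n) b ∧ ∀ u, b u u = 0

/-- The product of the values of the bilinear forms `b l` on the vectors `v (l, 0)`, `v (l, 1)`. -/
def prodAt {m n : ℕ} (b : Fin m → Bilinear A n) (v : Fin m × Fin 2 → Fin n → A.H1) : ℚ :=
  ∏ l, b l (v (l, 0)) (v (l, 1))

/-- The alternating form `ψ` is the product of the classes `b l` of degree two. -/
def IsProduct {m n : ℕ} (b : Fin m → Bilinear A n) (ψ : Cohomology A m n) : Prop :=
  ∀ v, ψ v = ∑ σ : Equiv.Perm (Fin m × Fin 2), ((Equiv.Perm.sign σ : ℤ) : ℚ) * prodAt A b (v ∘ σ)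

/-- `φ` is a linear combination of products of divisor classes. -/
def IsSumOfProducts {m n : ℕ} (φ : Cohomology A m n) : Prop :=
  φ ∈ Submodule.span ℚ {ψ | ∃ b : Fin m → Bilinear A n, (∀ l, IsDivisorClass A (b l)) ∧
    IsProduct A b ψ}

/-! ### The proof -/

variable {A}

theorem comm_iff (X : Module.End ℚ A.H1) : Commutes A X ↔ X ∈ N208.BT.CB A :=
  ⟨fun h P hP => h P (A.mem_EA.1 hP), fun h P hP => h P (A.mem_EA.2 hP)⟩

theorem mem_adjoin (z X : Module.End ℚ A.H1) :
    InField A z X ↔ X ∈ (Algebra.adjoin ℚ {z}).toSubmodule := by
  rw [Subalgebra.mem_toSubmodule, Algebra.adjoin_singleton_eq_range_aeval]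
  exact ⟨fun ⟨q, hq⟩ => ⟨q, hq.symm⟩, fun ⟨q, hq⟩ => ⟨q, hq.symm⟩⟩

theorem finrank_field (z : Module.End ℚ A.H1) :
    Set.finrank ℚ {X | InField A z X} = finrank ℚ (Algebra.adjoin ℚ {z}) := by
  have h1 : {X : Module.End ℚ A.H1 | InField A z X} =
      (Algebra.adjoin ℚ {z}).toSubmodule := Set.ext fun X => mem_adjoin z X
  unfold Set.finrank
  rw [h1, Submodule.span_eq]
  rfl

theorem RankTwo.toHF {z : Module.End ℚ A.H1} {S : Finset ℝ} (h : RankTwo A z S) :
    N208.LC.HF A z 2 where
  mem := A.mem_EA.2 h.centre.endo
  cen := fun P hP => h.centre.central P (A.mem_EA.1 hP)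
  skew := h.centre.skew
  ne := h.centre.nonzero
  field := fun q hq => h.centre.field _ ⟨q, rfl⟩ hq
  gen := fun P hP hc => h.centre.generates P (A.mem_EA.1 hP) fun Q hQ => hc Q (A.mem_EA.2 hQ)
  deg := by
    have h1 : {X : Module.End ℚ A.H1 | Commutes A X} = N208.BT.CB A := Set.ext fun X => comm_iff X
    have h2 := h.degree
    rw [finrank_field] at h2
    unfold Set.finrank at h2
    rw [h1, Submodule.span_eq] at h2
    exact h2

theorem RankTwo.toH2 {z : Module.End ℚ A.H1} {S : Finset ℝ} (h : RankTwo A z S) :
    U400.RT.H2 A z S where
  hF := h.toHF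
  ne := h.places.nonempty
  nz := by
    rintro a ha rfl
    exact h.places.disjoint 0 ha (by rwa [neg_zero])
  ind := h.places.indefinite

theorem RankTwo.prim {z : Module.End ℚ A.H1} {S : Finset ℝ} (h : RankTwo A z S) :
    U400.RT.Prim A z S := by
  rcases h.primitive with h1 | h1
  · intro C hC hcl q hq
    exact h1 C hC hcl _ ⟨⟨q, rfl⟩, hq⟩
  · exact U400.RT.prim_of_coprime h.toH2 h.places.disjoint h1

theorem ControlledCentre.mem {z : Module.End ℚ A.H1} (h : ControlledCentre A z)
    {q : Polynomial ℚ} (hq : ∀ u v, A.om (Polynomial.aeval z q u) v +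
      A.om u (Polynomial.aeval z q v) = 0) : Polynomial.aeval z q ∈ A.LA := by
  obtain ⟨g', A', ι, π, hf, hr, hc⟩ := h
  obtain ⟨X, hX, hX'⟩ := hc _ ⟨⟨q, rfl⟩, hq⟩
  have h1 : A'.CN ≤ A'.LA := A'.centre_le fun X hX hg Y hY => by
    refine dom_of_matrix (hr X ⟨hX.1, hX.2⟩ (fun T hT hTX Z hZ => ?_) Y ⟨hY.1, hY.2⟩)
    exact hg T hT hTX Z ⟨hZ.1, hZ.2⟩
  exact N208.LC.mem_LA_of_fac ⟨hf.section_, hf.homomorphism⟩ (h1 ⟨hX.1, hX.2⟩) hX'

/-- The elements of `K⁻` annihilate the de Rham-Betti classes. -/
theorem RankTwo.centre_mem {z : Module.End ℚ A.H1} {S : Finset ℝ} (h : RankTwo A z S)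
    (hc : SimpleCentre A z ∨ QuarticCentre A z ∨ ControlledCentre A z)
    (q : Polynomial ℚ) (hq : ∀ u v, A.om (Polynomial.aeval z q u) v +
      A.om u (Polynomial.aeval z q v) = 0) : Polynomial.aeval z q ∈ A.LA := by
  rcases hc with hc | hc | hc
  · exact h.toH2.mem_LA (fun p q hp hq h0 =>
      dom_of_matrix (hc _ _ ⟨⟨p, rfl⟩, hp⟩ ⟨⟨q, rfl⟩, hq⟩ h0)) hq
  · refine h.toH2.mem_LA (fun p q hp hq h0 => ?_) hq
    exact U400.RT.quartic_dom h.toHF.field (by rw [← finrank_field]; exact hc.1)
      (fun r hr h0 c => hc.2 _ ⟨⟨r, rfl⟩, hr⟩ h0 c) p q hp hq h0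
  · exact hc.mem hq

/-- **Theorem.** Let `A` be an abelian variety of rank two over the CM field `K`, with a primitive set of
indefinite places, or such that the number of the indefinite places is prime to `[K⁺ : ℚ]`. Let `K⁻` be
simple, or let `K` be a quartic field which contains no imaginary quadratic field, or let the
centre be controlled. Then for all natural numbers `m` and `n`

1. every de Rham-Betti class in `H^1(A ^ n) ^ {⊗ 2m} (m)` is a linear combination of products of Hodge
   classes of degree two;
2. every class in `H^{2m}_Gr(A ^ n, ℚ(m))` is a linear combination of products of divisor classes. -/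
theorem result {g : ℕ} (A : AbVar g) (z : Module.End ℚ A.H1) (S : Finset ℝ) (hA : RankTwo A z S)
    (hc : SimpleCentre A z ∨ QuarticCentre A z ∨ ControlledCentre A z) (m n : ℕ) :
    (∀ φ : TensorPow A m n, IsDRB A φ → IsDecomposable A φ) ∧
      ∀ φ : Cohomology A m n, IsGr A φ → IsSumOfProducts A φ := by
  have key : ∀ φ : MultilinearMap ℚ (fun _ : Fin m × Fin 2 => A.H1) ℚ,
      IsDeRhamBettiForm QBar A.dR tau m φ →
      φ ∈ Submodule.span ℚ {ψ | IsProductOfHodgeBilinear (A.per : A.H1 →+ (Fin g → ℂ)) ψ} :=
    fun φ hφ => U400.RT.main_all' (hA.toH2.UU_le hA.prim) hA.toHF (hA.centre_mem hc) hφ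
  have h1 := fun φ hφ => N208.LC.main_pow (A := A) (m := m) (n := n) key φ hφ
  exact ⟨h1, fun φ hφ => N208.LC.alt_span φ (h1 _ hφ)⟩

end Pool.Agent.Results.MP_bf54cf_ag.RankTwoUnitary
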