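import Pool.Agent.U926.SF.Period

/-!
# The Grothendieck period conjecture for sums of forms in separate variables

Let `k` be the field of algebraic numbers and `F = g_0(x^(0)) + ⋯ + g_r(x^(r))`, where the `g_l` are
nonsingular forms of degree `d ≥ 2` in separate sets of variables:

* `d = 3`: cubic forms in at most three variables each;
* `d = 4`: quartic forms in at most two variables each;
* `d ∣ 24`, `d ≠ 24` (`d = 2, 3, 4, 6, 8, 12`): forms in one variable each (Fermat hypersurfaces).

There is no restriction on the number of the forms, so the dimension of the hypersurface `F = 0` is
arbitrary.

**Theorem.** The Grothendieck period conjecture for algebraic cycles holds for `F = 0`: every class in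
`H^(2 j)_dR(X / k) ∩ H^(2 j)(X^an, ℚ(j))` is a rational combination of classes of algebraic cycles. The
same is true for all products of such hypersurfaces (of any degrees) with elliptic curves and all
other varieties which are built from products of elliptic curves, and for every variety which is built
from such products: for example for the coverings `w ^ m = F(x)` of the projective space, `m` a divisor
of `d`, for quotients and images under generically finite morphisms, for the blow-ups of such products
in such products, and for projective bundles over them.

The theorem of Kreutz, Shen and Vial is the case of products of elliptic curves.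

The known theorems which are used:

* the formal properties of the Chow groups (`IsChowProj`), of the cohomology with complex
  coefficients (`IsWeilProj`) and of its de Rham and Betti classes (`DeRhamTheory`, `BettiTheory`);
* `hT`, the theorem of Katsura and Shioda: `f(x) + g(y) = 0` is dominated by the product of
  `f(x) + z ^ d = 0` and `g(y) + w ^ d = 0`, blown up in the product of `f(x) = 0` and `g(y) = 0`;
* `hK`: the motives of plane cubic curves, of cubic surfaces, of the plane curves
  `f(x, y) + z ^ 4 = 0` and of the Fermat curves of the degrees `d ∣ 24`, `d ≠ 24`, are direct
  summands of motives of products of elliptic curves;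
* `hE`: the theorem of Kreutz, Shen and Vial for products of elliptic curves.
-/

set_option autoImplicit false

open CategoryTheory AlgebraicGeometry MvPolynomial

universe u v

namespace Pool.Agent.Results.MP_bf54cf_ag.SumsOfForms

open Pool.Agent.H914 Pool.Agent.H914.VarClass Pool.Agent.H914.VarClass.Obj Pool.Agent.W492.BB
  Pool.Agent.TH133 Pool.Agent.U926.SF

/-- **The Grothendieck period conjecture for algebraic cycles** for the hypersurfaces
`g_0 + ⋯ + g_r = 0` with equations in separate sets of variables, for their products with varieties
built from products of elliptic curves, and for all varieties which are built from these products. -/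
theorem result {k : Type u} [Field k] [CharZero k] [IsAlgClosure ℚ k] {𝒱 : VarClass k}
    {C : TheoryData.{u, v, 0} 𝒱 ℚ} [IsChowProj C] {H : WeilTheoryData.{u, v, 0} C ℂ}
    [IsWeilProj H] (S : PeriodData H) (hS : S.DeRhamTheory) (hS' : S.BettiTheory)
    (T : Hypersurfaces 𝒱) (hT : ∀ d : ℕ, 2 ≤ d → (d : k) ≠ 0 → IsKatsuraShioda C T d)
    (hK : HaveEllipticMotives C T) (hE : ∀ Y : 𝒱.Obj, IsEllipticProduct Y → PeriodConjecture S Y)
    (X : 𝒱.Obj) (hX : IsBuiltFrom C (IsEllipticSum C T) X) : PeriodConjecture S X :=
  .of_isBuiltFrom hS hS'
    (fun _ hY => .of_isBuiltFrom hS hS' hE (hY.isBuiltFrom hT hK)) hX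

end Pool.Agent.Results.MP_bf54cf_ag.SumsOfForms
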